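import Pool.Agent.H18.Cr3

set_option autoImplicit false

namespace Pool.Agent.Results.MP_d80832_gt.CH

open Set Pool.Agent.H8.Tau

/-- countable Borel covers, `ω`-, `τ`- and `γ`-covers of the subspace `X` of the reals -/
abbrev B (X : Set ℝ) : Set (Set X) → Prop := fun 𝒰 => 𝒰.Countable ∧ Cov MeasurableSet 𝒰
abbrev BΩ (X : Set ℝ) : Set (Set X) → Prop := fun 𝒰 => 𝒰.Countable ∧ Om MeasurableSet 𝒰
abbrev BT (X : Set ℝ) : Set (Set X) → Prop := fun 𝒰 => 𝒰.Countable ∧ Ta MeasurableSet 𝒰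
abbrev BΓ (X : Set ℝ) : Set (Set X) → Prop := fun 𝒰 => 𝒰.Countable ∧ Ga MeasurableSet 𝒰

/-- Under CH none of the six properties passes to subsets. -/
theorem result (hCH : Cardinal.continuum.{0} = Cardinal.aleph 1) :
    ∃ X Y : Set ℝ, Y ⊆ X ∧
      (S1 (BT X) (BΓ X) ∧ S1 (BT X) (BT X) ∧ S1 (BT X) (BΩ X) ∧ S1 (BT X) (B X) ∧
        Sfin (BT X) (BT X) ∧ Sfin (BT X) (BΩ X)) ∧
      (¬ S1 (BT Y) (BΓ Y) ∧ ¬ S1 (BT Y) (BT Y) ∧ ¬ S1 (BT Y) (BΩ Y) ∧ ¬ S1 (BT Y) (B Y) ∧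
        ¬ Sfin (BT Y) (BT Y) ∧ ¬ Sfin (BT Y) (BΩ Y)) := by
  obtain ⟨X, Y, h0, h1, h2, -, 𝒰, u1, u2, u3⟩ := Pool.Agent.H18.Cr.real hCH
  haveI := h1.to_subtype
  haveI := (h1.mono h0).to_subtype
  have hto : ∀ (Z : Set ℝ) [Nonempty Z], ∀ 𝒰, BT Z 𝒰 → BΩ Z 𝒰 := fun Z _ 𝒰 h =>
    ⟨h.1, it_om h.2.1 (h.2.enum le_rfl h.1 h.2.2.1)⟩
  have a : S1 (BT X) (BΓ X) := by
    intro 𝒱 hV
    choose u a b using fun n => (hV n).2.enum le_rfl (hV n).1 (hV n).2.2.1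
    obtain ⟨g, hg⟩ := h2 u (fun n m => (hV n).2.1.1 _ (a n m)) b
    exact ⟨fun n => u n (g n), fun n => a n _, countable_range _, ga_range
      (fun n => (hV n).2.1.1 _ (a n _)) (fun n t => (hV n).2.1.2.2 (t ▸ a n (g n))) hg⟩
  have b : S1 (BT X) (BT X) := a.mono (fun _ => id) fun _ t => ⟨t.1, t.2.ta⟩
  have c : S1 (BT X) (BΩ X) := b.mono (fun _ => id) (hto X)
  have u0 : ∀ n, BT Y (𝒰 n) := fun n => ⟨(u1 n).1,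
    ⟨fun U hU => ((u1 n).2.1.1 U hU).measurableSet, (u1 n).2.1.2⟩, (u1 n).2.2⟩
  have d : ¬ S1 (BT Y) (B Y) := fun t => by
    obtain ⟨U, a, -, -, b, -⟩ := t 𝒰 u0
    obtain ⟨y, hy⟩ := u2 U a
    obtain ⟨_, ⟨n, rfl⟩, s⟩ := (show y ∈ ⋃₀ range U from b ▸ mem_univ y)
    exact hy n s
  have e : ¬ Sfin (BT Y) (BΩ Y) := fun t => by
    obtain ⟨F, a, -, -, b⟩ := t 𝒰 u0
    obtain ⟨y, z, s⟩ := u3 F a
    obtain ⟨V, v1, v2⟩ := b {y, z} (toFinite _)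
    obtain ⟨n, hn⟩ := mem_iUnion.mp v1
    exact s n V hn ⟨v2 (Or.inl rfl), v2 (Or.inr rfl)⟩
  exact ⟨X, Y, h0, ⟨a, b, c, c.mono (fun _ => id) fun _ t => ⟨t.1, t.2.1⟩, b.sfin, c.sfin⟩,
    fun t => d (t.mono (fun _ => id) fun _ t => ⟨t.1, t.2.1⟩),
    fun t => d (t.mono (fun _ => id) fun _ t => ⟨t.1, t.2.1⟩),
    fun t => d (t.mono (fun _ => id) fun _ t => ⟨t.1, t.2.1⟩), d,
    fun t => e (t.mono (fun _ => id) (hto Y)), e⟩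

end Pool.Agent.Results.MP_d80832_gt.CH
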